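import Mathlib

namespace Pool.Agent.Results.MP_1fc697_co.ConnectedFails

open Classical in
/-- The closed neighbourhood sum `f[v]`. -/
noncomputable def closedSum {V : Type} [Fintype V] (G : SimpleGraph V) (f : V → ℤ) (v : V) : ℤ :=
  f v + ∑ u ∈ Finset.univ.filter (fun u => G.Adj v u), f u

open Classical in
/-- `f` is a signed `k`-subdominating function of `G`. -/
def IsSubdominating {V : Type} [Fintype V] (G : SimpleGraph V) (k : ℕ) (f : V → ℤ) : Prop :=
  (∀ v, f v = 1 ∨ f v = -1) ∧ k ≤ (Finset.univ.filter (fun v => 1 ≤ closedSum G f v)).card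

/-- The signed `k`-subdomination number of `G`: the minimum weight of a signed
`k`-subdominating function. -/
noncomputable def gammaKS {V : Type} [Fintype V] (G : SimpleGraph V) (k : ℕ) : ℤ :=
  sInf {w : ℤ | ∃ f : V → ℤ, IsSubdominating G k f ∧ w = ∑ v, f v}

/-- `p(n)` for the class of connected graphs: the smallest `p` such that the number is at most
`2 k - n` for every connected graph of order `n` and every `1 ≤ k ≤ n` with `p ≤ k`. -/
noncomputable def pConnected (n : ℕ) : ℕ :=
  sInf {p : ℕ | ∀ (V : Type) [Fintype V] (G : SimpleGraph V), Fintype.card V = n →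
    G.Connected → ∀ k : ℕ, 1 ≤ k → p ≤ k → k ≤ n → gammaKS G k ≤ 2 * (k : ℤ) - n}

section construction

variable {m : ℕ}

/-- The crossed pair of fibres. -/
def cross (i j : Fin m) : Bool := (i.val == 0 && j.val == 1) || (i.val == 1 && j.val == 0)

theorem cross_comm (i j : Fin m) : cross i j = cross j i := by
  unfold cross
  cases (i.val == 0) <;> cases (j.val == 1) <;> cases (i.val == 1) <;> cases (j.val == 0) <;> rfl

/-- The double cover of the complete graph on `m` points with exactly one crossed edge. -/
def cover (m : ℕ) : SimpleGraph (Fin m × Bool) where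
  Adj u v := u.1 ≠ v.1 ∧ v.2 = xor u.2 (cross u.1 v.1)
  symm := ⟨by
    rintro ⟨i, b⟩ ⟨j, c⟩ ⟨h1, h2⟩
    refine ⟨h1.symm, ?_⟩
    simp only at h2 ⊢
    rw [h2, cross_comm j i]
    cases b <;> cases cross i j <;> rfl⟩
  loopless := ⟨by
    rintro ⟨i, b⟩ ⟨h1, _⟩
    exact h1 rfl⟩

/-- The element of the closed neighbourhood of `v` in the fibre over `j`. -/
def sec (v : Fin m × Bool) (j : Fin m) : Bool := if j = v.1 then v.2 else xor v.2 (cross v.1 j)

theorem closedSum_eq (f : Fin m × Bool → ℤ) (v : Fin m × Bool) :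
    closedSum (cover m) f v = ∑ j, f (j, sec v j) := by
  classical
  unfold closedSum
  have h1 : ∑ u ∈ Finset.univ.filter (fun u => (cover m).Adj v u), f u =
      ∑ j ∈ Finset.univ.erase v.1, f (j, sec v j) := by
    symm
    apply Finset.sum_bij (fun j _ => (j, sec v j))
    · intro j hj
      have hj' : j ≠ v.1 := (Finset.mem_erase.mp hj).1
      rw [Finset.mem_filter]
      exact ⟨Finset.mem_univ _, hj'.symm, by simp [sec, hj']⟩
    · intro j _ j' _ h
      exact (Prod.mk.inj h).1
    · rintro ⟨j, c⟩ hu
      rw [Finset.mem_filter] at hu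
      obtain ⟨hne, hc⟩ := hu.2
      simp only at hne hc
      refine ⟨j, Finset.mem_erase.mpr ⟨hne.symm, Finset.mem_univ _⟩, ?_⟩
      rw [hc]
      simp [sec, hne.symm]
    · intro j _
      rfl
  have h2 : f v = f (v.1, sec v v.1) := by simp [sec]
  convert_to f v + ∑ u ∈ Finset.univ.filter (fun u => (cover m).Adj v u), f u = _
  rw [h1, h2, ← Finset.add_sum_erase Finset.univ (fun j => f (j, sec v j)) (Finset.mem_univ v.1)]

theorem sec_flip (i : Fin m) (b : Bool) (j : Fin m) : sec (i, !b) j = !(sec (i, b) j) := by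
  unfold sec
  split_ifs
  · rfl
  · cases b <;> cases cross i j <;> rfl

theorem closedSum_add (f : Fin m × Bool → ℤ) (i : Fin m) :
    closedSum (cover m) f (i, false) + closedSum (cover m) f (i, true) = ∑ v, f v := by
  rw [closedSum_eq, closedSum_eq, ← Finset.sum_add_distrib, ← Finset.univ_product_univ,
    Finset.sum_product]
  apply Finset.sum_congr rfl
  intro j _
  have h := sec_flip i false j
  simp only [Bool.not_false] at h
  rw [h]
  cases sec (i, false) j <;> simp [add_comm]

theorem closedSum_even (hm : Even m) (f : Fin m × Bool → ℤ) (hf : ∀ v, f v = 1 ∨ f v = -1)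
    (v : Fin m × Bool) : Even (closedSum (cover m) f v) := by
  rw [closedSum_eq]
  have h1 : ∀ j : Fin m, ∃ c : ℤ, f (j, sec v j) = 1 + 2 * c := by
    intro j
    rcases hf (j, sec v j) with h | h
    · exact ⟨0, by rw [h]; ring⟩
    · exact ⟨-1, by rw [h]; ring⟩
  choose c hc using h1
  simp only [hc, Finset.sum_add_distrib, Finset.sum_const, Finset.card_univ, Fintype.card_fin,
    ← Finset.mul_sum]
  obtain ⟨r, hr⟩ := hm
  refine ⟨r + ∑ j, c j, ?_⟩
  have hr' : (m : ℤ) = r + r := by exact_mod_cast hr
  simp only [nsmul_eq_mul, mul_one]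
  rw [hr']
  ring

theorem four_le (hm : Even m) (f : Fin m × Bool → ℤ)
    (hf : IsSubdominating (cover m) (m + 1) f) : 4 ≤ ∑ v, f v := by
  classical
  obtain ⟨hf1, hf2⟩ := hf
  have hex : ∃ i : Fin m, 1 ≤ closedSum (cover m) f (i, false) ∧
      1 ≤ closedSum (cover m) f (i, true) := by
    by_contra hcon
    push Not at hcon
    have hcard : (Finset.univ.filter (fun v => 1 ≤ closedSum (cover m) f v)).card ≤
        (Finset.univ : Finset (Fin m)).card := by
      apply Finset.card_le_card_of_injOn (fun v => v.1) (fun _ _ => Finset.mem_coe.mpr (Finset.mem_univ _))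
      rintro ⟨i, b⟩ hu ⟨j, c⟩ hv hij
      simp only [Finset.coe_filter, Finset.mem_univ, true_and, Set.mem_ofPred_eq] at hu hv
      simp only at hij
      subst hij
      cases b <;> cases c
      · rfl
      · have := hcon i hu
        omega
      · have := hcon i hv
        omega
      · rfl
    rw [Finset.card_univ, Fintype.card_fin] at hcard
    have : m + 1 ≤ m := by
      refine le_trans hf2 ?_
      convert hcard
    omega
  obtain ⟨i, h1, h2⟩ := hex
  obtain ⟨r, hr⟩ := closedSum_even hm f hf1 (i, false)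
  obtain ⟨s, hs⟩ := closedSum_even hm f hf1 (i, true)
  rw [← closedSum_add f i]
  omega

theorem exists_four (hm : Even m) (hm2 : 2 ≤ m) (k : ℕ) (hk : k ≤ 2 * m) :
    ∃ f, IsSubdominating (cover m) k f ∧ ∑ v, f v = 4 := by
  classical
  obtain ⟨r, hr⟩ := hm
  obtain ⟨g, hg⟩ : ∃ g : Fin m → ℤ, ∀ j, g j = if j.val < r - 1 then -1 else 1 := ⟨_, fun _ => rfl⟩
  have hgsum : ∑ j, g j = 2 := by
    simp only [hg]
    rw [Finset.sum_ite, Finset.sum_const, Finset.sum_const]
    have c1 : (Finset.univ.filter (fun j : Fin m => j.val < r - 1)).card = r - 1 := by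
      rw [Fin.card_filter_val_lt]
      omega
    have c2 : (Finset.univ.filter (fun j : Fin m => ¬ j.val < r - 1)).card = r + 1 := by
      have := Finset.card_filter_add_card_filter_not (s := (Finset.univ : Finset (Fin m)))
        (fun j : Fin m => j.val < r - 1)
      rw [c1, Finset.card_univ, Fintype.card_fin] at this
      omega
    rw [c1, c2]
    simp only [nsmul_eq_mul]
    push_cast [Nat.cast_sub (show 1 ≤ r by omega)]
    ring
  refine ⟨fun v => g v.1, ⟨?_, ?_⟩, ?_⟩
  · intro v
    simp only [hg]
    split_ifs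
    · right; rfl
    · left; rfl
  · have : (Finset.univ.filter (fun v => 1 ≤ closedSum (cover m) (fun v => g v.1) v)) =
        Finset.univ := by
      ext v
      simp only [Finset.mem_filter, Finset.mem_univ, true_and, iff_true]
      rw [closedSum_eq]
      simp only [hgsum]
      norm_num
    convert hk
    rw [this, Finset.card_univ, Fintype.card_prod, Fintype.card_fin, Fintype.card_bool, mul_comm]
  · rw [← Finset.univ_product_univ, Finset.sum_product]
    simp only [Finset.sum_const, Finset.card_univ, Fintype.card_bool, nsmul_eq_mul]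
    rw [← Finset.mul_sum, hgsum]
    norm_num

theorem cover_connected (hm : 3 ≤ m) : (cover m).Connected := by
  have adj : ∀ (i j : Fin m) (b : Bool), i ≠ j → (cover m).Adj (i, b) (j, xor b (cross i j)) :=
    fun i j b h => ⟨h, rfl⟩
  let z : Fin m := ⟨0, by omega⟩
  let o : Fin m := ⟨1, by omega⟩
  let t : Fin m := ⟨2, by omega⟩
  have hzo : z ≠ o := by simp [z, o, Fin.ext_iff]
  have hzt : z ≠ t := by simp [z, t, Fin.ext_iff]
  have hto : t ≠ o := by simp [t, o, Fin.ext_iff]
  have czo : cross z o = true := by simp [cross, z, o]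
  have czt : cross z t = false := by simp [cross, z, t]
  have cto : cross t o = false := by simp [cross, t, o]
  -- the two points over `z` are joined
  have base : (cover m).Reachable (z, false) (z, true) := by
    have h1 := (adj z t false hzt).reachable
    have h2 := (adj t o false hto).reachable
    have h3 := (adj z o true hzo).reachable
    rw [czt, Bool.xor_false] at h1
    rw [cto, Bool.xor_false] at h2
    rw [czo, Bool.xor_true, Bool.not_true] at h3
    exact (h1.trans h2).trans h3.symm
  have base' : ∀ b, (cover m).Reachable (z, false) (z, b) := by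
    intro b
    cases b
    · exact SimpleGraph.Reachable.refl _
    · exact base
  have all : ∀ v, (cover m).Reachable (z, false) v := by
    rintro ⟨j, c⟩
    by_cases hj : z = j
    · rw [← hj]; exact base' c
    · have h1 := (adj z j (xor c (cross z j)) hj).reachable
      have h2 : xor (xor c (cross z j)) (cross z j) = c := by
        cases c <;> cases cross z j <;> rfl
      rw [h2] at h1
      exact (base' _).trans h1
  have : Nonempty (Fin m × Bool) := ⟨(z, false)⟩
  exact SimpleGraph.Connected.mk (fun u v => (all u).symm.trans (all v))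

end construction

theorem gamma_cover (m : ℕ) (hm : Even m) (hm2 : 2 ≤ m) (k : ℕ) (hk1 : m + 1 ≤ k)
    (hk : k ≤ 2 * m) : gammaKS (cover m) k = 4 := by
  have hlb : ∀ w ∈ {w : ℤ | ∃ f : Fin m × Bool → ℤ, IsSubdominating (cover m) k f ∧ w = ∑ v, f v},
      4 ≤ w := by
    rintro w ⟨f, hf, rfl⟩
    exact four_le hm f ⟨hf.1, le_trans hk1 hf.2⟩
  obtain ⟨f, hf, hs⟩ := exists_four hm hm2 k hk
  apply le_antisymm
  · exact csInf_le ⟨4, hlb⟩ ⟨f, hf, hs.symm⟩
  · exact le_csInf ⟨4, f, hf, hs.symm⟩ hlb

/-- For every `n ≥ 8` divisible by four there is a connected graph of order `n` whose signed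
`k`-subdomination number equals `2 (k + 1) - n` for `k = n / 2 + 1 > n / 2`; consequently
`p(n) ≥ n / 2 + 2` for the class of connected graphs. -/
theorem result (n : ℕ) (h4 : 4 ∣ n) (hn : 8 ≤ n) :
    (∃ (V : Type) (_ : Fintype V) (G : SimpleGraph V), Fintype.card V = n ∧ G.Connected ∧
      gammaKS G (n / 2 + 1) = 2 * (((n / 2 + 1 : ℕ) : ℤ) + 1) - n) ∧
    n / 2 + 2 ≤ pConnected n := by
  obtain ⟨r, rfl⟩ := h4
  have hdiv : 4 * r / 2 = 2 * r := by omega
  rw [hdiv]
  have hg : gammaKS (cover (2 * r)) (2 * r + 1) = 4 :=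
    gamma_cover (2 * r) ⟨r, by ring⟩ (by omega) _ le_rfl (by omega)
  have hcard : Fintype.card (Fin (2 * r) × Bool) = 4 * r := by
    rw [Fintype.card_prod, Fintype.card_fin, Fintype.card_bool]; ring
  refine ⟨⟨Fin (2 * r) × Bool, inferInstance, cover (2 * r), hcard,
    cover_connected (by omega), ?_⟩, ?_⟩
  · rw [hg]; push_cast; ring
  · have hne : {p : ℕ | ∀ (V : Type) [Fintype V] (G : SimpleGraph V), Fintype.card V = 4 * r →
        G.Connected → ∀ k : ℕ, 1 ≤ k → p ≤ k → k ≤ 4 * r →
        gammaKS G k ≤ 2 * (k : ℤ) - (4 * r : ℕ)}.Nonempty := by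
      refine ⟨4 * r + 1, ?_⟩
      intro V _ G _ _ k _ h1 h2
      omega
    have hmem := Nat.sInf_mem hne
    by_contra hlt
    push Not at hlt
    have h1 := hmem (Fin (2 * r) × Bool) (cover (2 * r)) hcard (cover_connected (by omega))
      (2 * r + 1) (by omega) (by unfold pConnected at hlt; omega) (by omega)
    rw [hg] at h1
    push_cast at h1
    omega

end Pool.Agent.Results.MP_1fc697_co.ConnectedFails
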