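import Pool.Agent.SKS.K
import Pool.Agent.SKT.F
import Pool.Agent.SKT.E2
import Pool.Agent.Results.MP_1fc697_co.ConnectedFails

namespace Pool.Agent.Results.MP_1fc697_co.EvenOrderTwo

open Classical in
/-- The closed neighbourhood sum `f[v]`. -/
noncomputable def closedSum {V : Type} [Fintype V] (G : SimpleGraph V) (f : V → ℤ) (v : V) : ℤ :=
  f v + ∑ u ∈ Finset.univ.filter (fun u => G.Adj v u), f u

open Classical in
/-- `f` is a signed `k`-subdominating function of `G`. -/
def IsSubdominating {V : Type} [Fintype V] (G : SimpleGraph V) (k : ℕ) (f : V → ℤ) : Prop :=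
  (∀ v, f v = 1 ∨ f v = -1) ∧ k ≤ (Finset.univ.filter (fun v => 1 ≤ closedSum G f v)).card

/-- The signed `k`-subdomination number of `G`: the minimum weight of a signed
`k`-subdominating function. -/
noncomputable def gammaKS {V : Type} [Fintype V] (G : SimpleGraph V) (k : ℕ) : ℤ :=
  sInf {w : ℤ | ∃ f : V → ℤ, IsSubdominating G k f ∧ w = ∑ v, f v}

/-- `p(n)` for the class of connected graphs: the smallest `p` such that the number is at most
`2 k - n` for every connected graph of order `n` and every `1 ≤ k ≤ n` with `p ≤ k`. -/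
noncomputable def pConnected (n : ℕ) : ℕ :=
  sInf {p : ℕ | ∀ (V : Type) [Fintype V] (G : SimpleGraph V), Fintype.card V = n →
    G.Connected → ∀ k : ℕ, 1 ≤ k → p ≤ k → k ≤ n → gammaKS G k ≤ 2 * (k : ℤ) - n}

section basic

variable {V : Type} [Fintype V] (G : SimpleGraph V)

theorem abs_sum_le (f : V → ℤ) (hf : ∀ v, f v = 1 ∨ f v = -1) :
    -(Fintype.card V : ℤ) ≤ ∑ v, f v := by
  have h1 : ∑ _v : V, (-1 : ℤ) ≤ ∑ v, f v := by
    apply Finset.sum_le_sum
    intro v _
    rcases hf v with h | h <;> rw [h]; norm_num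
  simpa using h1

theorem gamma_le {k : ℕ} {f : V → ℤ} (h : IsSubdominating G k f) : gammaKS G k ≤ ∑ v, f v := by
  apply csInf_le
  · refine ⟨-(Fintype.card V : ℤ), ?_⟩
    rintro w ⟨g, hg, rfl⟩
    exact abs_sum_le g hg.1
  · exact ⟨f, h, rfl⟩

theorem le_gamma {k : ℕ} (hk : k ≤ Fintype.card V) {c : ℤ}
    (h : ∀ f : V → ℤ, IsSubdominating G k f → c ≤ ∑ v, f v) : c ≤ gammaKS G k := by
  classical
  apply le_csInf
  · refine ⟨_, fun _ => 1, ⟨fun _ => Or.inl rfl, ?_⟩, rfl⟩
    have h1 : (Finset.univ.filter (fun v => 1 ≤ closedSum G (fun _ => 1) v)) = Finset.univ := by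
      apply Finset.filter_true_of_mem
      intro v _
      unfold closedSum
      have : (0 : ℤ) ≤ ∑ u ∈ Finset.univ.filter (fun u => G.Adj v u), (1 : ℤ) :=
        Finset.sum_nonneg (fun _ _ => by norm_num)
      linarith
    rw [h1, Finset.card_univ]
    exact hk
  · rintro w ⟨f, hf, rfl⟩
    exact h f hf

open Classical in
/-- a set `M` such that every other vertex has at least half of its neighbours outside gives a
subdominating function. -/
theorem gamma_le_of_set (M : Finset V)
    (h : ∀ u, u ∉ M → ((Finset.univ.filter (fun v => G.Adj u v)) ∩ M).card ≤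
      ((Finset.univ.filter (fun v => G.Adj u v)) \ M).card) {k : ℕ}
    (hk : k + M.card ≤ Fintype.card V) :
    gammaKS G k ≤ (Fintype.card V : ℤ) - 2 * M.card := by
  set f : V → ℤ := fun v => if v ∈ M then -1 else 1 with hf
  have hsum : ∀ S : Finset V, ∑ v ∈ S, f v = (S \ M).card - (S ∩ M).card := by
    intro S
    rw [← Finset.sum_inter_add_sum_sdiff S M]
    have h1 : ∑ v ∈ S ∩ M, f v = -((S ∩ M).card : ℤ) := by
      rw [Finset.sum_congr rfl (g := fun _ => (-1 : ℤ))]
      · simp
      · intro v hv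
        simp [hf, (Finset.mem_inter.1 hv).2]
    have h2 : ∑ v ∈ S \ M, f v = ((S \ M).card : ℤ) := by
      rw [Finset.sum_congr rfl (g := fun _ => (1 : ℤ))]
      · simp
      · intro v hv
        simp [hf, (Finset.mem_sdiff.1 hv).2]
    rw [h1, h2]; ring
  have hsub : IsSubdominating G k f := by
    refine ⟨fun v => ?_, ?_⟩
    · by_cases hv : v ∈ M
      · right; simp [hf, hv]
      · left; simp [hf, hv]
    · have h1 : Mᶜ ⊆ Finset.univ.filter (fun v => 1 ≤ closedSum G f v) := by
        intro u hu
        rw [Finset.mem_filter]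
        refine ⟨Finset.mem_univ _, ?_⟩
        have hu' := Finset.mem_compl.1 hu
        unfold closedSum
        have h2 := h u hu'
        have h3 := hsum (Finset.univ.filter (fun v => G.Adj u v))
        have h4 : f u = 1 := by simp [hf, hu']
        have h5 : (((Finset.univ.filter (fun v => G.Adj u v)) ∩ M).card : ℤ) ≤
          ((Finset.univ.filter (fun v => G.Adj u v)) \ M).card := by exact_mod_cast h2
        rw [h4]
        linarith
      have h6 := Finset.card_le_card h1
      have h7 := Finset.card_compl_add_card M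
      omega
  have h8 := gamma_le G hsub
  have h9 := hsum Finset.univ
  have h10 : ((Finset.univ \ M).card : ℤ) + M.card = Fintype.card V := by
    have := Finset.card_compl_add_card M
    rw [← Finset.compl_eq_univ_sdiff]
    exact_mod_cast this
  rw [Finset.univ_inter] at h9
  linarith

/-- gap at least six, for every graph of even order with a vertex of degree at least two -/
theorem upper6 (hn : Even (Fintype.card V)) {a b c : V} (hab : G.Adj a b) (hac : G.Adj a c)
    (hbc : b ≠ c) {k : ℕ} (hk : Fintype.card V / 2 + 3 ≤ k)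
    (hk' : k ≤ Fintype.card V) : gammaKS G k ≤ 2 * (k : ℤ) - Fintype.card V := by
  classical
  obtain ⟨M, hM, h⟩ := Pool.Agent.SKS.simple_even G hn (j := Fintype.card V - k)
    (by obtain ⟨t, ht⟩ := hn; omega) hab hac hbc
  have h1 := gamma_le_of_set G M (fun u hu => by
    have h2 := h u hu
    rw [Finset.sum_boole, Finset.sum_boole] at h2
    have e1 : M.filter (fun v => G.Adj u v) = (Finset.univ.filter (fun v => G.Adj u v)) ∩ M := by
      ext x; simp [and_comm]
    have e2 : (Mᶜ.erase u).filter (fun v => G.Adj u v) =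
        (Finset.univ.filter (fun v => G.Adj u v)) \ M := by
      ext x
      simp only [Finset.mem_filter, Finset.mem_erase, Finset.mem_compl, Finset.mem_sdiff,
        Finset.mem_univ, true_and]
      constructor
      · rintro ⟨⟨_, hx⟩, hx'⟩; exact ⟨hx', hx⟩
      · rintro ⟨hx', hx⟩; exact ⟨⟨fun q => G.loopless.irrefl u (q ▸ hx'), hx⟩, hx'⟩
    rw [e1, e2] at h2
    exact_mod_cast h2) (k := k) (by omega)
  have h3 : (M.card : ℤ) = Fintype.card V - k := by rw [hM]; push_cast [hk']; ring
  rw [h3] at h1
  linarith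

/-- a connected graph with at least three vertices has a vertex with two neighbours -/
theorem exists_two_nbrs (hG : G.Connected) (h3 : 3 ≤ Fintype.card V) :
    ∃ a b c : V, G.Adj a b ∧ G.Adj a c ∧ b ≠ c := by
  classical
  by_contra hno
  push Not at hno
  have hne : Nonempty V := hG.nonempty
  obtain ⟨v⟩ := hne
  have hnt : Nontrivial V := Fintype.one_lt_card_iff_nontrivial.1 (by omega)
  obtain ⟨w, hw⟩ := hG.preconnected.exists_adj_of_nontrivial v
  have hall : ∀ x y : V, G.Walk x y → (x = v ∨ x = w) → (y = v ∨ y = w) := by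
    intro x y p
    induction p with
    | nil => exact id
    | cons hxy _ ih =>
      rename_i a b c
      intro hx
      apply ih
      rcases hx with rfl | rfl
      · right; exact (hno _ _ _ hxy hw)
      · left; exact (hno _ _ _ hxy hw.symm)
  have hsub : (Finset.univ : Finset V) ⊆ {v, w} := by
    intro y _
    obtain ⟨p⟩ := hG.preconnected v y
    simpa using hall v y p (Or.inl rfl)
  have h1 := Finset.card_le_card hsub
  have h2 := Finset.card_le_two (a := v) (b := w)
  rw [Finset.card_univ] at h1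
  omega

/-- gap four -/
theorem upper4 {c : ℕ} (hc : 2 * c = Fintype.card V + 4)
    (h : ∃ f : V → ℤ, (∀ v, f v = 1 ∨ f v = -1) ∧ ∑ v, f v = 4 ∧
      c ≤ (Finset.univ.filter (fun v => 1 ≤ closedSum G f v)).card) :
    gammaKS G c ≤ 2 * (c : ℤ) - Fintype.card V := by
  obtain ⟨f, h1, h2, h3⟩ := h
  have h4 := gamma_le G (k := c) (f := f) ⟨h1, h3⟩
  rw [h2] at h4
  have h5 : (2 * (c : ℤ)) = Fintype.card V + 4 := by exact_mod_cast hc
  linarith

/-- `k = n` -/
theorem upper_all : gammaKS G (Fintype.card V) ≤ 2 * ((Fintype.card V : ℕ) : ℤ) -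
    Fintype.card V := by
  classical
  have h0 : IsSubdominating G (Fintype.card V) (fun _ => 1) := by
    refine ⟨fun _ => Or.inl rfl, ?_⟩
    have h1 : (Finset.univ.filter (fun v => 1 ≤ closedSum G (fun _ => 1) v)) = Finset.univ := by
      apply Finset.filter_true_of_mem
      intro v _
      unfold closedSum
      have : (0 : ℤ) ≤ ∑ u ∈ Finset.univ.filter (fun u => G.Adj v u), (1 : ℤ) :=
        Finset.sum_nonneg (fun _ _ => by norm_num)
      linarith
    rw [h1, Finset.card_univ]
  have h1 := gamma_le G h0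
  have h2 : ∑ _v : V, (1 : ℤ) = Fintype.card V := by simp
  rw [h2] at h1
  linarith

end basic

/-- the upper bound -/
theorem upper_deg2 {V : Type} [Fintype V] (G : SimpleGraph V) (hn : Even (Fintype.card V))
    {a b c : V} (hab : G.Adj a b) (hac : G.Adj a c) (hbc : b ≠ c) {k : ℕ}
    (hk : Fintype.card V / 2 + 2 ≤ k) (hk' : k ≤ Fintype.card V) :
    gammaKS G k ≤ 2 * (k : ℤ) - Fintype.card V := by
  classical
  obtain ⟨t, ht⟩ := hn
  rcases eq_or_lt_of_le hk' with e | e
  · rw [e]; exact upper_all G
  rcases eq_or_lt_of_le hk with e2 | e2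
  · have ht3 : 3 ≤ t := by omega
    obtain ⟨i, rfl⟩ : ∃ i, t = i + 3 := ⟨t - 3, by omega⟩
    apply upper4 G (by omega)
    have hcard : Fintype.card V = 2 * i + 6 := by omega
    obtain ⟨f, h1, h2, h3⟩ := Pool.Agent.SKT.good_of_deg2 (Pool.Agent.SKT.mainOdd V) G i hcard
      hab hac hbc
    refine ⟨f, h1, h2, ?_⟩
    have h4 : k = i + 5 := by omega
    rw [h4]
    exact h3
  · exact upper6 G ⟨t, ht⟩ hab hac hbc (by omega) hk'

/-- **Theorem.** (1) For every graph of even order `n` with a vertex of degree at least two, and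
every `k` with `n / 2 + 2 ≤ k ≤ n`, the signed `k`-subdomination number is at most `2 k - n`.
(2) `p(n) ≤ n / 2 + 2` for the class of connected graphs, for every even `n`.
(3) `p(n) = n / 2 + 2` for every `n ≥ 8` divisible by four. -/
theorem result :
    (∀ (V : Type) [Fintype V] (G : SimpleGraph V), Even (Fintype.card V) →
      (∃ a b c : V, G.Adj a b ∧ G.Adj a c ∧ b ≠ c) →
      ∀ k : ℕ, Fintype.card V / 2 + 2 ≤ k → k ≤ Fintype.card V →
        gammaKS G k ≤ 2 * (k : ℤ) - Fintype.card V) ∧
    (∀ n : ℕ, Even n → pConnected n ≤ n / 2 + 2) ∧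
    ∀ n : ℕ, 8 ≤ n → 4 ∣ n → pConnected n = n / 2 + 2 := by
  have h2 : ∀ n : ℕ, Even n → pConnected n ≤ n / 2 + 2 := by
    intro n hn
    apply Nat.sInf_le
    intro V _ G hV hG k _ hk hk'
    subst hV
    rcases eq_or_lt_of_le hk' with e | e
    · rw [e]; exact upper_all G
    obtain ⟨a, b, c, hab, hac, hbc⟩ := exists_two_nbrs G hG (by obtain ⟨t, ht⟩ := hn; omega)
    exact upper_deg2 G hn hab hac hbc hk hk'
  refine ⟨?_, h2, ?_⟩
  · rintro V _ G hV ⟨a, b, c, hab, hac, hbc⟩ k hk hk'
    exact upper_deg2 G hV hab hac hbc hk hk'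
  · intro n hn h4
    apply le_antisymm
    · exact h2 n (by obtain ⟨r, rfl⟩ := h4; exact ⟨2 * r, by ring⟩)
    · have h := (ConnectedFails.result n h4 hn).2
      have he : ConnectedFails.pConnected n = pConnected n := rfl
      rw [he] at h
      exact h

end Pool.Agent.Results.MP_1fc697_co.EvenOrderTwo
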