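import Pool.Agent.SKS.H

namespace Pool.Agent.Results.MP_1fc697_co.OddOrder

open Classical in
/-- The closed neighbourhood sum `f[v]`. -/
noncomputable def closedSum {V : Type} [Fintype V] (G : SimpleGraph V) (f : V → ℤ) (v : V) : ℤ :=
  f v + ∑ u ∈ Finset.univ.filter (fun u => G.Adj v u), f u

open Classical in
/-- `f` is a signed `k`-subdominating function of `G`. -/
def IsSubdominating {V : Type} [Fintype V] (G : SimpleGraph V) (k : ℕ) (f : V → ℤ) : Prop :=
  (∀ v, f v = 1 ∨ f v = -1) ∧ k ≤ (Finset.univ.filter (fun v => 1 ≤ closedSum G f v)).card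

/-- The signed `k`-subdomination number of `G`: the minimum weight of a signed
`k`-subdominating function. -/
noncomputable def gammaKS {V : Type} [Fintype V] (G : SimpleGraph V) (k : ℕ) : ℤ :=
  sInf {w : ℤ | ∃ f : V → ℤ, IsSubdominating G k f ∧ w = ∑ v, f v}

/-- `p(n)` for the class of connected graphs: the smallest `p` such that the number is at most
`2 k - n` for every connected graph of order `n` and every `1 ≤ k ≤ n` with `p ≤ k`. -/
noncomputable def pConnected (n : ℕ) : ℕ :=
  sInf {p : ℕ | ∀ (V : Type) [Fintype V] (G : SimpleGraph V), Fintype.card V = n →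
    G.Connected → ∀ k : ℕ, 1 ≤ k → p ≤ k → k ≤ n → gammaKS G k ≤ 2 * (k : ℤ) - n}

section basic

variable {V : Type} [Fintype V] (G : SimpleGraph V)

theorem abs_sum_le (f : V → ℤ) (hf : ∀ v, f v = 1 ∨ f v = -1) :
    -(Fintype.card V : ℤ) ≤ ∑ v, f v := by
  have h1 : ∑ _v : V, (-1 : ℤ) ≤ ∑ v, f v := by
    apply Finset.sum_le_sum
    intro v _
    rcases hf v with h | h <;> rw [h]; norm_num
  simpa using h1

theorem gamma_le {k : ℕ} {f : V → ℤ} (h : IsSubdominating G k f) : gammaKS G k ≤ ∑ v, f v := by
  apply csInf_le
  · refine ⟨-(Fintype.card V : ℤ), ?_⟩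
    rintro w ⟨g, hg, rfl⟩
    exact abs_sum_le g hg.1
  · exact ⟨f, h, rfl⟩

theorem le_gamma {k : ℕ} (hk : k ≤ Fintype.card V) {c : ℤ}
    (h : ∀ f : V → ℤ, IsSubdominating G k f → c ≤ ∑ v, f v) : c ≤ gammaKS G k := by
  classical
  apply le_csInf
  · refine ⟨_, fun _ => 1, ⟨fun _ => Or.inl rfl, ?_⟩, rfl⟩
    have h1 : (Finset.univ.filter (fun v => 1 ≤ closedSum G (fun _ => 1) v)) = Finset.univ := by
      apply Finset.filter_true_of_mem
      intro v _
      unfold closedSum
      have : (0 : ℤ) ≤ ∑ u ∈ Finset.univ.filter (fun u => G.Adj v u), (1 : ℤ) :=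
        Finset.sum_nonneg (fun _ _ => by norm_num)
      linarith
    rw [h1, Finset.card_univ]
    exact hk
  · rintro w ⟨f, hf, rfl⟩
    exact h f hf

open Classical in
/-- a set `M` such that every other vertex has at least half of its neighbours outside gives a
subdominating function. -/
theorem gamma_le_of_set (M : Finset V)
    (h : ∀ u, u ∉ M → ((Finset.univ.filter (fun v => G.Adj u v)) ∩ M).card ≤
      ((Finset.univ.filter (fun v => G.Adj u v)) \ M).card) {k : ℕ}
    (hk : k + M.card ≤ Fintype.card V) :
    gammaKS G k ≤ (Fintype.card V : ℤ) - 2 * M.card := by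
  set f : V → ℤ := fun v => if v ∈ M then -1 else 1 with hf
  have hsum : ∀ S : Finset V, ∑ v ∈ S, f v = (S \ M).card - (S ∩ M).card := by
    intro S
    rw [← Finset.sum_inter_add_sum_sdiff S M]
    have h1 : ∑ v ∈ S ∩ M, f v = -((S ∩ M).card : ℤ) := by
      rw [Finset.sum_congr rfl (g := fun _ => (-1 : ℤ))]
      · simp
      · intro v hv
        simp [hf, (Finset.mem_inter.1 hv).2]
    have h2 : ∑ v ∈ S \ M, f v = ((S \ M).card : ℤ) := by
      rw [Finset.sum_congr rfl (g := fun _ => (1 : ℤ))]
      · simp
      · intro v hv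
        simp [hf, (Finset.mem_sdiff.1 hv).2]
    rw [h1, h2]; ring
  have hsub : IsSubdominating G k f := by
    refine ⟨fun v => ?_, ?_⟩
    · by_cases hv : v ∈ M
      · right; simp [hf, hv]
      · left; simp [hf, hv]
    · have h1 : Mᶜ ⊆ Finset.univ.filter (fun v => 1 ≤ closedSum G f v) := by
        intro u hu
        rw [Finset.mem_filter]
        refine ⟨Finset.mem_univ _, ?_⟩
        have hu' := Finset.mem_compl.1 hu
        unfold closedSum
        have h2 := h u hu'
        have h3 := hsum (Finset.univ.filter (fun v => G.Adj u v))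
        have h4 : f u = 1 := by simp [hf, hu']
        have h5 : (((Finset.univ.filter (fun v => G.Adj u v)) ∩ M).card : ℤ) ≤
          ((Finset.univ.filter (fun v => G.Adj u v)) \ M).card := by exact_mod_cast h2
        rw [h4]
        linarith
      have h6 := Finset.card_le_card h1
      have h7 := Finset.card_compl_add_card M
      omega
  have h8 := gamma_le G hsub
  have h9 := hsum Finset.univ
  have h10 : ((Finset.univ \ M).card : ℤ) + M.card = Fintype.card V := by
    have := Finset.card_compl_add_card M
    rw [← Finset.compl_eq_univ_sdiff]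
    exact_mod_cast this
  rw [Finset.univ_inter] at h9
  linarith

/-- the upper bound, for every graph of odd order -/
theorem upper (hn : Odd (Fintype.card V)) {k : ℕ} (hk : Fintype.card V < 2 * k)
    (hk' : k ≤ Fintype.card V) : gammaKS G k ≤ 2 * (k : ℤ) - Fintype.card V := by
  classical
  obtain ⟨M, hM, h⟩ := Pool.Agent.SKS.weighted (fun u v : V => if G.Adj u v then 1 else 0)
    (fun u v => by simp [G.adj_comm u v]) hn (j := Fintype.card V - k) (by omega)
  have h1 := gamma_le_of_set G M (fun u hu => by
    have h2 := h u hu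
    rw [Finset.sum_boole, Finset.sum_boole] at h2
    have e1 : M.filter (fun v => G.Adj u v) = (Finset.univ.filter (fun v => G.Adj u v)) ∩ M := by
      ext x; simp [and_comm]
    have e2 : (Mᶜ.erase u).filter (fun v => G.Adj u v) =
        (Finset.univ.filter (fun v => G.Adj u v)) \ M := by
      ext x
      simp only [Finset.mem_filter, Finset.mem_erase, Finset.mem_compl, Finset.mem_sdiff,
        Finset.mem_univ, true_and]
      constructor
      · rintro ⟨⟨_, hx⟩, hx'⟩; exact ⟨hx', hx⟩
      · rintro ⟨hx', hx⟩; exact ⟨⟨fun q => G.loopless.irrefl u (q ▸ hx'), hx⟩, hx'⟩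
    rw [e1, e2] at h2
    exact_mod_cast h2) (k := k) (by omega)
  have h3 : (M.card : ℤ) = Fintype.card V - k := by rw [hM]; push_cast [hk']; ring
  rw [h3] at h1
  linarith

end basic

section star

/-- the star -/
def star (m : ℕ) : SimpleGraph (Fin (m + 1)) where
  Adj u v := u ≠ v ∧ (u = 0 ∨ v = 0)
  symm := ⟨fun u v h => ⟨h.1.symm, h.2.symm⟩⟩
  loopless := ⟨fun u h => h.1 rfl⟩

theorem star_connected (m : ℕ) : (star m).Connected := by
  have h0 : ∀ v : Fin (m + 1), (star m).Reachable 0 v := by
    intro v
    by_cases h : v = 0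
    · subst h; exact SimpleGraph.Reachable.refl _
    · exact SimpleGraph.Adj.reachable ⟨fun q => h q.symm, Or.inl rfl⟩
  have : Nonempty (Fin (m + 1)) := ⟨0⟩
  exact SimpleGraph.Connected.mk (fun u v => (h0 u).symm.trans (h0 v))

theorem star_lower {m k : ℕ} (hk1 : 1 ≤ k) (hk : m ≤ 2 * k) (hkm : k ≤ m) :
    1 ≤ gammaKS (star m) k ∨ 2 * k ≠ m := by
  classical
  by_cases hm : 2 * k = m
  · left
    apply le_gamma
    · rw [Fintype.card_fin]; omega
    · rintro f ⟨hf, hc⟩
      by_contra hneg
      have hneg' : ∑ v, f v ≤ 0 := by omega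
      -- the centre is not covered
      have hcentre : closedSum (star m) f 0 = ∑ v, f v := by
        unfold closedSum
        rw [← Finset.add_sum_erase Finset.univ f (Finset.mem_univ 0)]
        congr 1
        apply Finset.sum_congr _ (fun _ _ => rfl)
        ext v
        simp [star, eq_comm]
      have hleaf : ∀ v : Fin (m + 1), v ≠ 0 → closedSum (star m) f v = f v + f 0 := by
        intro v hv
        unfold closedSum
        congr 1
        have : Finset.univ.filter (fun u => (star m).Adj v u) = {0} := by
          ext u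
          simp only [star, Finset.mem_filter, Finset.mem_univ, true_and, Finset.mem_singleton]
          constructor
          · rintro ⟨_, h | h⟩
            · exact absurd h hv
            · exact h
          · rintro rfl; exact ⟨hv, Or.inr rfl⟩
        rw [this, Finset.sum_singleton]
      -- covered vertices are positive leaves, and then the centre is positive
      have hcov : ∀ v, 1 ≤ closedSum (star m) f v → v ≠ 0 ∧ f v = 1 ∧ f 0 = 1 := by
        intro v hv
        by_cases h0 : v = 0
        · subst h0; rw [hcentre] at hv; omega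
        · rw [hleaf v h0] at hv
          refine ⟨h0, ?_, ?_⟩
          · rcases hf v with h | h
            · exact h
            · rcases hf 0 with h' | h' <;> rw [h, h'] at hv <;> omega
          · rcases hf 0 with h' | h'
            · exact h'
            · rcases hf v with h | h <;> rw [h, h'] at hv <;> omega
      have hpos : ∃ v, 1 ≤ closedSum (star m) f v := by
        by_contra hno
        have : Finset.univ.filter (fun v => 1 ≤ closedSum (star m) f v) = ∅ := by
          apply Finset.filter_false_of_mem
          intro v _ hv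
          exact hno ⟨v, hv⟩
        rw [this, Finset.card_empty] at hc
        omega
      obtain ⟨v0, hv0⟩ := hpos
      have hf0 := (hcov v0 hv0).2.2
      have hsub : insert 0 (Finset.univ.filter (fun v => 1 ≤ closedSum (star m) f v)) ⊆
          Finset.univ.filter (fun v => f v = 1) := by
        intro x hx
        rw [Finset.mem_filter]
        refine ⟨Finset.mem_univ _, ?_⟩
        rcases Finset.mem_insert.1 hx with h | h
        · rw [h]; exact hf0
        · exact (hcov x (Finset.mem_filter.1 h).2).2.1
      have hcard := Finset.card_le_card hsub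
      have hnot : (0 : Fin (m + 1)) ∉
          Finset.univ.filter (fun v => 1 ≤ closedSum (star m) f v) :=
        fun q => (hcov 0 (Finset.mem_filter.1 q).2).1 rfl
      rw [Finset.card_insert_of_notMem hnot] at hcard
      have hsum : ∑ v, f v = 2 * ((Finset.univ.filter (fun v => f v = 1)).card : ℤ) -
          (m + 1 : ℕ) := by
        have h1 : ∀ v, f v = 2 * (if f v = 1 then 1 else 0) - 1 := by
          intro v
          rcases hf v with h | h <;> rw [h] <;> norm_num
        rw [Finset.sum_congr rfl (fun v _ => h1 v), Finset.sum_sub_distrib, ← Finset.mul_sum,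
          Finset.sum_boole]
        simp
      have hcard' : (k : ℤ) + 1 ≤ ((Finset.univ.filter (fun v => f v = 1)).card : ℤ) := by
        have : k + 1 ≤ (Finset.univ.filter (fun v => f v = 1)).card := by
          refine le_trans (Nat.add_le_add_right hc 1) hcard
        exact_mod_cast this
      have hm' : (m : ℤ) = 2 * k := by rw [← hm]; push_cast; ring
      push_cast at hsum
      linarith
  · exact Or.inr hm

end star

/-- **Theorem.** For every odd `n ≥ 3`, `p(n) = ⌊n/2⌋ + 1` for the class of connected graphs. -/
theorem result : ∀ n : ℕ, Odd n → 3 ≤ n → pConnected n = n / 2 + 1 := by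
  intro n hn h3
  have hup : ∀ (V : Type) [Fintype V] (G : SimpleGraph V), Fintype.card V = n →
      ∀ k : ℕ, 1 ≤ k → n / 2 + 1 ≤ k → k ≤ n → gammaKS G k ≤ 2 * (k : ℤ) - n := by
    intro V _ G hV k _ hk hk'
    subst hV
    exact upper G hn (by omega) hk'
  have hlow : ∀ p : ℕ, (∀ k : ℕ, 1 ≤ k → p ≤ k → k ≤ n →
      gammaKS (star (n - 1)) k ≤ 2 * (k : ℤ) - n) → n / 2 + 1 ≤ p := by
    intro p hp
    by_contra hlt
    rw [not_le] at hlt
    obtain ⟨r, hr⟩ := hn
    have h1 := hp (n / 2) (by omega) (by omega) (by omega)
    rcases star_lower (m := n - 1) (k := n / 2) (by omega) (by omega) (by omega) with h2 | h2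
    · have h3 : ((n / 2 : ℕ) : ℤ) * 2 = n - 1 := by
        have : n / 2 * 2 = n - 1 := by omega
        have h4 : ((n / 2 * 2 : ℕ) : ℤ) = ((n - 1 : ℕ) : ℤ) := by rw [this]
        push_cast at h4
        omega
      omega
    · omega
  have hcard : Fintype.card (Fin (n - 1 + 1)) = n := by rw [Fintype.card_fin]; omega
  apply le_antisymm
  · apply Nat.sInf_le
    intro V _ G hV _ k hk1 hk hk'
    exact hup V G hV k hk1 hk hk'
  · apply le_csInf
    · exact ⟨n / 2 + 1, fun V _ G hV _ k hk1 hk hk' => hup V G hV k hk1 hk hk'⟩
    · intro p hp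
      exact hlow p (fun k h1 h2 h4 => hp _ (star (n - 1)) hcard (star_connected _) k h1 h2 h4)

end Pool.Agent.Results.MP_1fc697_co.OddOrder
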